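import Pool.Agent.H85.LK.Targets

set_option autoImplicit false

open MeasureTheory Metric Set ProbabilityTheory
open scoped ENNReal

namespace Pool.Agent.H99.LK

open Pool.Agent.H85.LK

/-- radial smooth functions -/
lemma buc_radial {N : ℕ} (F : ℝ → ℝ) (δ : ℝ) (hδ : 0 < δ) (hF : ContDiff ℝ (⊤ : ℕ∞) F)
    (h0 : ∀ t, t ≤ δ → F t = 0) : ContDiff ℝ (⊤ : ℕ∞) (fun x : E N => F ‖x‖) := by
  rw [contDiff_iff_contDiffAt]
  intro x
  by_cases hx : ‖x‖ < δ
  · refine (contDiffAt_const (c := (0 : ℝ))).congr_of_eventuallyEq ?_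
    have h2 : ∀ᶠ y : E N in nhds x, ‖y‖ < δ := (continuous_norm.tendsto x).eventually_lt_const hx
    filter_upwards [h2] with y hy using h0 _ hy.le
  · have hx0 : x ≠ 0 := by
      rintro rfl
      simp [hδ] at hx
    exact hF.contDiffAt.comp x (contDiffAt_norm ℝ hx0)

lemma buc_div (F : ℝ → ℝ) (δ : ℝ) (hδ : 0 < δ) (hF : ContDiff ℝ (⊤ : ℕ∞) F)
    (h0 : ∀ t, t ≤ δ → F t = 0) : ContDiff ℝ (⊤ : ℕ∞) (fun t => F t / t) := by
  rw [contDiff_iff_contDiffAt]
  intro x
  by_cases hx : x < δ
  · refine (contDiffAt_const (c := (0 : ℝ))).congr_of_eventuallyEq ?_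
    filter_upwards [Iio_mem_nhds hx] with y hy
    rw [h0 y (le_of_lt hy), zero_div]
  · exact hF.contDiffAt.div contDiffAt_id (by simp; linarith)

lemma buc_cdiv (F : ℝ → ℝ) (δ : ℝ) (hδ : 0 < δ) (hF : Continuous F)
    (h0 : ∀ t, t ≤ δ → F t = 0) : Continuous (fun t => F t / t) := by
  rw [continuous_iff_continuousAt]
  intro x
  by_cases hx : x < δ
  · refine (continuousAt_const (y := (0 : ℝ))).congr ?_
    filter_upwards [Iio_mem_nhds hx] with y hy
    rw [h0 y (le_of_lt hy), zero_div]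
  · exact hF.continuousAt.div continuousAt_id (by simp; linarith)

lemma buc_int {N : ℕ} (F : ℝ → ℝ) (G : E N → ℝ) (hF : Continuous F) (hG : Continuous G)
    (h1 : ∀ t, 1 ≤ t → F t = 0) : Integrable (fun x : E N => G x * F ‖x‖) := by
  refine Continuous.integrable_of_hasCompactSupport (by fun_prop) ?_
  refine HasCompactSupport.of_support_subset_isCompact (isCompact_closedBall (0 : E N) 1) ?_
  intro x hx
  by_contra hcon
  apply hx
  rw [mem_closedBall, dist_zero_right, not_le] at hcon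
  simp [h1 _ hcon.le]

lemma buc_norm {N : ℕ} (x : E N) (hx : x ≠ 0) :
    HasFDerivAt (fun y : E N => ‖y‖) (‖x‖⁻¹ • innerSL ℝ x) x := by
  have h1 : HasFDerivAt (fun y : E N => ‖y‖ ^ 2) (2 • innerSL ℝ x) x :=
    (hasStrictFDerivAt_norm_sq x).hasFDerivAt
  have hx' : ‖x‖ ≠ 0 := norm_ne_zero_iff.2 hx
  have h2 := h1.sqrt (by positivity)
  have h3 : (fun y : E N => √(‖y‖ ^ 2)) = fun y => ‖y‖ := by
    funext y
    exact Real.sqrt_sq (norm_nonneg y)
  rw [h3] at h2
  refine h2.congr_fderiv ?_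
  rw [Real.sqrt_sq (norm_nonneg x)]
  ext v
  simp
  field_simp

theorem pf_BUC (hSYM : T_SYM) : T_BUC := by
  intro N a δ α β hN ha
  obtain ⟨hsm, hδ, hδ1, h0, h1⟩ := ha
  set b : ℝ → ℝ := fun t => a t / t with hb
  have hb0 : ∀ t, t ≤ δ → b t = 0 := fun t ht => by simp [hb, h0 t ht]
  have hb1 : ∀ t, 1 ≤ t → b t = 0 := fun t ht => by simp [hb, h1 t (by linarith)]
  have hbC : ContDiff ℝ (⊤ : ℕ∞) b := buc_div a δ hδ hsm h0
  have hfun : (fun x : E N => (α + inner ℝ β x / ‖x‖) * a ‖x‖) =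
      fun x : E N => α * a ‖x‖ + inner ℝ β x * b ‖x‖ := by
    funext x
    simp only [hb]
    ring
  have ha' : ∀ t, t ≤ δ / 2 → deriv a t = 0 := by
    intro t ht
    have : a =ᶠ[nhds t] fun _ => 0 := by
      filter_upwards [Iio_mem_nhds (show t < δ by linarith)] with y hy using h0 y (le_of_lt hy)
    rw [this.deriv_eq]
    simp
  have ha'1 : ∀ t, 1 ≤ t → deriv a t = 0 := by
    intro t ht
    have : a =ᶠ[nhds t] fun _ => 0 := by
      filter_upwards [Ioi_mem_nhds (show 1 - δ < t by linarith)] with y hy using h1 y (le_of_lt hy)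
    rw [this.deriv_eq]
    simp
  have hac : Continuous a := hsm.continuous
  have hdc : Continuous (deriv a) := hsm.continuous_deriv (by simp)
  have hbc : Continuous b := hbC.continuous
  set d : ℝ → ℝ := fun t => deriv a t / t with hd
  set e : ℝ → ℝ := fun t => b t / t with he
  have hdcont : Continuous d := buc_cdiv (deriv a) (δ / 2) (by linarith) hdc ha'
  have hecont : Continuous e := buc_cdiv b δ hδ hbc hb0
  have hd1 : ∀ t, 1 ≤ t → d t = 0 := fun t ht => by simp [hd, ha'1 t ht]
  have he1 : ∀ t, 1 ≤ t → e t = 0 := fun t ht => by simp [he, hb1 t ht]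
  -- support
  have hsupp : Function.support (fun x : E N => (α + inner ℝ β x / ‖x‖) * a ‖x‖) ⊆
      closedBall 0 (1 - δ) := by
    intro x hx
    by_contra hcon
    apply hx
    rw [mem_closedBall, dist_zero_right, not_le] at hcon
    simp [h1 _ hcon.le]
  have htsupp : tsupport (fun x : E N => (α + inner ℝ β x / ‖x‖) * a ‖x‖) ⊆
      closedBall 0 (1 - δ) := closure_minimal hsupp isClosed_closedBall
  refine ⟨?_, ?_, ?_, ?_, ?_⟩
  · rw [hfun]
    have c1 := buc_radial (N := N) a δ hδ hsm h0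
    have c2 := buc_radial (N := N) b δ hδ hbC hb0
    exact (contDiff_const.mul c1).add ((contDiff_const.inner ℝ contDiff_id).mul c2)
  · exact HasCompactSupport.of_support_subset_isCompact (isCompact_closedBall (0 : E N) _) hsupp
  · exact htsupp.trans (closedBall_subset_ball (by linarith))
  · -- the square
    have s1 := hSYM N (fun t => a t * b t) β hN
      (buc_int (fun t => a t * b t) (fun x => ‖x‖ ^ 2) (by fun_prop) (by fun_prop)
        (fun t ht => by simp [hb1 t ht]))
      (buc_int (fun t => a t * b t) (fun x => ‖x‖) (by fun_prop) (by fun_prop)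
        (fun t ht => by simp [hb1 t ht]))
    have s2 := hSYM N (fun t => b t ^ 2) β hN
      (buc_int (fun t => b t ^ 2) (fun x => ‖x‖ ^ 2) (by fun_prop) (by fun_prop)
        (fun t ht => by simp [hb1 t ht]))
      (buc_int (fun t => b t ^ 2) (fun x => ‖x‖) (by fun_prop) (by fun_prop)
        (fun t ht => by simp [hb1 t ht]))
    have e1 : ∫ x : E N, ‖x‖ ^ 2 * b ‖x‖ ^ 2 = ∫ x : E N, a ‖x‖ ^ 2 := by
      refine integral_congr_ae (Filter.Eventually.of_forall fun x => ?_)
      by_cases hx : x = 0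
      · simp [hx, h0 0 hδ.le]
      · have hx' : ‖x‖ ≠ 0 := norm_ne_zero_iff.2 hx
        simp only [hb]
        field_simp
    have i1 : Integrable (fun x : E N => α ^ 2 * a ‖x‖ ^ 2) :=
      buc_int (fun t => a t ^ 2) (fun _ => α ^ 2) (by fun_prop) (by fun_prop)
        (fun t ht => by simp [h1 t (by linarith)])
    have i2 : Integrable (fun x : E N => 2 * α * (inner ℝ β x * (a ‖x‖ * b ‖x‖))) :=
      (buc_int (fun t => a t * b t) (fun x => inner ℝ β x) (by fun_prop) (by fun_prop)
        (fun t ht => by simp [hb1 t ht])).const_mul _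
    have i3 : Integrable (fun x : E N => inner ℝ β x ^ 2 * b ‖x‖ ^ 2) :=
      buc_int (fun t => b t ^ 2) (fun x => inner ℝ β x ^ 2) (by fun_prop) (by fun_prop)
        (fun t ht => by simp [hb1 t ht])
    have e2 : ∫ x : E N, ((α + inner ℝ β x / ‖x‖) * a ‖x‖) ^ 2 =
        ∫ x : E N, (α ^ 2 * a ‖x‖ ^ 2 + 2 * α * (inner ℝ β x * (a ‖x‖ * b ‖x‖)) +
          inner ℝ β x ^ 2 * b ‖x‖ ^ 2) := by
      refine integral_congr_ae (Filter.Eventually.of_forall fun x => ?_)
      have := congrFun hfun x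
      simp only at this ⊢
      rw [this]
      ring
    have i12 : Integrable (fun x : E N => α ^ 2 * a ‖x‖ ^ 2 +
        2 * α * (inner ℝ β x * (a ‖x‖ * b ‖x‖))) := i1.add i2
    rw [e2, integral_add i12 i3, integral_add i1 i2, integral_const_mul,
      integral_const_mul, s1.1, s2.2, e1]
    ring
  · -- the gradient
    have hpt : ∀ x : E N, ‖fderiv ℝ (fun x : E N => (α + inner ℝ β x / ‖x‖) * a ‖x‖) x‖ ^ 2 =
        α ^ 2 * deriv a ‖x‖ ^ 2 + 2 * α * (inner ℝ β x * (deriv a ‖x‖ * d ‖x‖)) +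
          inner ℝ β x ^ 2 * d ‖x‖ ^ 2 + ‖β‖ ^ 2 * b ‖x‖ ^ 2 - inner ℝ β x ^ 2 * e ‖x‖ ^ 2 := by
      intro x
      by_cases hx : x = 0
      · have hz : (fun x : E N => (α + inner ℝ β x / ‖x‖) * a ‖x‖) =ᶠ[nhds x] fun _ => 0 := by
          have h2 : ∀ᶠ y : E N in nhds x, ‖y‖ < δ :=
            (continuous_norm.tendsto x).eventually_lt_const (by simp [hx, hδ])
          filter_upwards [h2] with y hy
          rw [h0 _ hy.le, mul_zero]
        rw [hz.fderiv_eq]
        subst hx
        simp [hd, ha' 0 (by linarith), hb0 0 hδ.le]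
      · have hx' : ‖x‖ ≠ 0 := norm_ne_zero_iff.2 hx
        set t : ℝ := ‖x‖ with ht
        have hn := buc_norm x hx
        have hda : HasDerivAt a (deriv a t) t :=
          (hsm.differentiable (by simp)).differentiableAt.hasDerivAt
        have hdb : HasDerivAt b ((deriv a t * t - a t * 1) / t ^ 2) t :=
          hda.div (hasDerivAt_id t) hx'
        have f1 := hda.comp_hasFDerivAt x hn
        have f2 := hdb.comp_hasFDerivAt x hn
        have f3 : HasFDerivAt (fun y : E N => (inner ℝ β y : ℝ)) (innerSL ℝ β) x :=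
          (innerSL ℝ β).hasFDerivAt
        have f4 := (f1.const_mul α).add (f3.mul f2)
        set s : ℝ := inner ℝ β x with hs
        set c : ℝ := (α * deriv a t + s * ((deriv a t * t - a t * 1) / t ^ 2)) / t with hc
        have f5 : fderiv ℝ (fun x : E N => (α + inner ℝ β x / ‖x‖) * a ‖x‖) x =
            innerSL ℝ (c • x + b t • β) := by
          rw [hfun]
          refine HasFDerivAt.fderiv (f4.congr_fderiv ?_)
          ext v
          simp only [_root_.add_apply, _root_.smul_apply,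
            innerSL_apply_apply, inner_add_left, real_inner_smul_left, smul_eq_mul,
            Function.comp_apply, hc]
          rw [← ht]
          field_simp
          ring
        rw [f5, innerSL_apply_norm, norm_add_sq_real, norm_smul, norm_smul,
          real_inner_smul_left, real_inner_smul_right, mul_pow, mul_pow, Real.norm_eq_abs,
          Real.norm_eq_abs, sq_abs, sq_abs, ← ht, real_inner_comm β x, ← hs]
        simp only [hc, hd, he, hb]
        field_simp
        ring
    have s1 := hSYM N (fun t => deriv a t * d t) β hN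
      (buc_int (fun t => deriv a t * d t) (fun x => ‖x‖ ^ 2) (by fun_prop) (by fun_prop)
        (fun t ht => by simp [hd1 t ht]))
      (buc_int (fun t => deriv a t * d t) (fun x => ‖x‖) (by fun_prop) (by fun_prop)
        (fun t ht => by simp [hd1 t ht]))
    have s2 := hSYM N (fun t => d t ^ 2) β hN
      (buc_int (fun t => d t ^ 2) (fun x => ‖x‖ ^ 2) (by fun_prop) (by fun_prop)
        (fun t ht => by simp [hd1 t ht]))
      (buc_int (fun t => d t ^ 2) (fun x => ‖x‖) (by fun_prop) (by fun_prop)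
        (fun t ht => by simp [hd1 t ht]))
    have s3 := hSYM N (fun t => e t ^ 2) β hN
      (buc_int (fun t => e t ^ 2) (fun x => ‖x‖ ^ 2) (by fun_prop) (by fun_prop)
        (fun t ht => by simp [he1 t ht]))
      (buc_int (fun t => e t ^ 2) (fun x => ‖x‖) (by fun_prop) (by fun_prop)
        (fun t ht => by simp [he1 t ht]))
    have e1 : ∫ x : E N, ‖x‖ ^ 2 * d ‖x‖ ^ 2 = ∫ x : E N, deriv a ‖x‖ ^ 2 := by
      refine integral_congr_ae (Filter.Eventually.of_forall fun x => ?_)
      by_cases hx : x = 0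
      · simp [hx, ha' 0 (by linarith)]
      · have hx' : ‖x‖ ≠ 0 := norm_ne_zero_iff.2 hx
        simp only [hd]
        field_simp
    have e2 : ∫ x : E N, ‖x‖ ^ 2 * e ‖x‖ ^ 2 = ∫ x : E N, b ‖x‖ ^ 2 := by
      refine integral_congr_ae (Filter.Eventually.of_forall fun x => ?_)
      by_cases hx : x = 0
      · simp [hx, hb0 0 hδ.le]
      · have hx' : ‖x‖ ≠ 0 := norm_ne_zero_iff.2 hx
        simp only [he]
        field_simp
    have e3 : ∫ x : E N, a ‖x‖ ^ 2 / ‖x‖ ^ 2 = ∫ x : E N, b ‖x‖ ^ 2 := by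
      refine integral_congr_ae (Filter.Eventually.of_forall fun x => ?_)
      simp only [hb]
      ring
    have i1 : Integrable (fun x : E N => α ^ 2 * deriv a ‖x‖ ^ 2) :=
      buc_int (fun t => deriv a t ^ 2) (fun _ => α ^ 2) (by fun_prop) (by fun_prop)
        (fun t ht => by simp [ha'1 t ht])
    have i2 : Integrable (fun x : E N => 2 * α * (inner ℝ β x * (deriv a ‖x‖ * d ‖x‖))) :=
      (buc_int (fun t => deriv a t * d t) (fun x => inner ℝ β x) (by fun_prop) (by fun_prop)
        (fun t ht => by simp [hd1 t ht])).const_mul _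
    have i3 : Integrable (fun x : E N => inner ℝ β x ^ 2 * d ‖x‖ ^ 2) :=
      buc_int (fun t => d t ^ 2) (fun x => inner ℝ β x ^ 2) (by fun_prop) (by fun_prop)
        (fun t ht => by simp [hd1 t ht])
    have i4 : Integrable (fun x : E N => ‖β‖ ^ 2 * b ‖x‖ ^ 2) :=
      buc_int (fun t => b t ^ 2) (fun _ => ‖β‖ ^ 2) (by fun_prop) (by fun_prop)
        (fun t ht => by simp [hb1 t ht])
    have i5 : Integrable (fun x : E N => inner ℝ β x ^ 2 * e ‖x‖ ^ 2) :=
      buc_int (fun t => e t ^ 2) (fun x => inner ℝ β x ^ 2) (by fun_prop) (by fun_prop)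
        (fun t ht => by simp [he1 t ht])
    have i12 : Integrable (fun x : E N => α ^ 2 * deriv a ‖x‖ ^ 2 +
        2 * α * (inner ℝ β x * (deriv a ‖x‖ * d ‖x‖))) := i1.add i2
    have i123 : Integrable (fun x : E N => α ^ 2 * deriv a ‖x‖ ^ 2 +
        2 * α * (inner ℝ β x * (deriv a ‖x‖ * d ‖x‖)) + inner ℝ β x ^ 2 * d ‖x‖ ^ 2) := i12.add i3
    have i1234 : Integrable (fun x : E N => α ^ 2 * deriv a ‖x‖ ^ 2 +
        2 * α * (inner ℝ β x * (deriv a ‖x‖ * d ‖x‖)) + inner ℝ β x ^ 2 * d ‖x‖ ^ 2 +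
        ‖β‖ ^ 2 * b ‖x‖ ^ 2) := i123.add i4
    simp only [hpt]
    rw [integral_sub i1234 i5, integral_add i123 i4,
      integral_add i12 i3, integral_add i1 i2, integral_const_mul, integral_const_mul,
      integral_const_mul, s1.1, s2.2, s3.2, e1, e2, e3]
    ring

end Pool.Agent.H99.LK
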