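import Pool.Agent.H85.LK.Targets

set_option autoImplicit false

open MeasureTheory Metric Set ProbabilityTheory
open scoped ENNReal

namespace Pool.Agent.H99.LK

open Pool.Agent.H85.LK

lemma sym_basis {N : ℕ} (f : ℝ → ℝ) (β : E N) (i : Fin N) :
    ∫ x : E N, inner ℝ β x ^ 2 * f ‖x‖ = ‖β‖ ^ 2 * ∫ x : E N, (x i) ^ 2 * f ‖x‖ := by
  set e : E N := EuclideanSpace.single i (1 : ℝ) with he
  have hn : ‖β‖ = ‖‖β‖ • e‖ := by
    rw [norm_smul, he, EuclideanSpace.norm_single]
    simp
  set R := (ℝ ∙ (β - ‖β‖ • e))ᗮ.reflection with hR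
  have hRb : R β = ‖β‖ • e := Submodule.reflection_sub hn
  have hmp : MeasurePreserving R volume volume := R.measurePreserving
  have h1 : ∫ x : E N, inner ℝ β (R x) ^ 2 * f ‖R x‖ = ∫ x : E N, inner ℝ β x ^ 2 * f ‖x‖ :=
    hmp.integral_comp R.toHomeomorph.measurableEmbedding
      (fun x => inner ℝ β x ^ 2 * f ‖x‖)
  rw [← h1, ← integral_const_mul]
  refine integral_congr_ae (Filter.Eventually.of_forall fun x => ?_)
  have h2 : inner ℝ β (R x) = ‖β‖ * x i := by
    have h3 : inner ℝ β (R x) = inner ℝ (R β) (R (R x)) := (R.inner_map_map β (R x)).symm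
    have h4 : R (R x) = x := Submodule.reflection_reflection _ x
    rw [h3, h4, hRb, real_inner_smul_left, he, EuclideanSpace.inner_single_left]
    simp
  simp only [h2, LinearIsometryEquiv.norm_map]
  ring

theorem pf_SYM : T_SYM := by
  intro N f β hN i1 i2
  constructor
  · have h1 := integral_neg_eq_self (μ := (volume : Measure (E N)))
      (fun x : E N => inner ℝ β x * f ‖x‖)
    simp only [inner_neg_right, norm_neg, neg_mul, integral_neg] at h1
    linarith
  · have hint : ∀ i : Fin N, Integrable (fun x : E N => (x i) ^ 2 * f ‖x‖) := by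
      intro i
      have hb : ∀ x : E N, ‖(x i) ^ 2 / ‖x‖ ^ 2‖ ≤ 1 := by
        intro x
        rw [Real.norm_of_nonneg (by positivity)]
        refine div_le_one_of_le₀ ?_ (by positivity)
        have h2 := PiLp.norm_apply_le x i
        rw [Real.norm_eq_abs] at h2
        rw [← sq_abs (x i)]
        exact pow_le_pow_left₀ (abs_nonneg _) h2 2
      have hm : AEStronglyMeasurable (fun x : E N => (x i) ^ 2 / ‖x‖ ^ 2) volume := by
        refine Measurable.aestronglyMeasurable ?_
        refine Measurable.div ?_ (by fun_prop)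
        have h3 : Measurable (fun x : E N => x i) := by
          have : Continuous (fun x : E N => x i) := by fun_prop
          exact this.measurable
        fun_prop
      have h4 := i1.bdd_mul hm (Filter.Eventually.of_forall hb)
      refine h4.congr (Filter.Eventually.of_forall fun x => ?_)
      by_cases hx : x = 0
      · simp [hx]
      · have hx' : ‖x‖ ≠ 0 := norm_ne_zero_iff.2 hx
        field_simp
    have hsum : ∫ x : E N, ‖x‖ ^ 2 * f ‖x‖ = ∑ i, ∫ x : E N, (x i) ^ 2 * f ‖x‖ := by
      rw [← integral_finsetSum _ (fun i _ => hint i)]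
      refine integral_congr_ae (Filter.Eventually.of_forall fun x => ?_)
      simp only [← Finset.sum_mul]
      rw [EuclideanSpace.real_norm_sq_eq]
    have h5 : ∑ _i : Fin N, ∫ x : E N, inner ℝ β x ^ 2 * f ‖x‖ =
        ∑ i, ‖β‖ ^ 2 * ∫ x : E N, (x i) ^ 2 * f ‖x‖ :=
      Finset.sum_congr rfl fun i _ => sym_basis f β i
    rw [Finset.sum_const, Finset.card_univ, Fintype.card_fin, nsmul_eq_mul, ← Finset.mul_sum,
      ← hsum] at h5
    have hN' : (N : ℝ) ≠ 0 := by
      have : 0 < N := hN
      positivity
    field_simp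
    linarith

end Pool.Agent.H99.LK
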