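import Pool.Agent.H85.LK.Targets

set_option autoImplicit false

open MeasureTheory Metric Set ProbabilityTheory
open scoped ENNReal

namespace Pool.Agent.H99.LK

open Pool.Agent.H85.LK

theorem pf_HDY : T_HDY := by
  intro N a δ hN ha
  obtain ⟨hsm, hδ, hδ1, h0, h1⟩ := ha
  obtain ⟨k, rfl⟩ : ∃ k : ℕ, N = k + 3 := ⟨N - 3, by omega⟩
  have e1 : k + 3 - 3 = k := by omega
  have e2 : k + 3 - 1 = k + 2 := by omega
  rw [e1, e2]
  set m : ℝ := (k : ℝ) + 1 with hm
  have hm0 : 0 < m := by positivity
  have e3 : (((k + 3 : ℕ) : ℝ) - 2) = m := by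
    rw [hm]
    push_cast
    ring
  rw [e3]
  have hac : Continuous a := hsm.continuous
  have hda : Continuous (deriv a) := hsm.continuous_deriv (by simp)
  have hsupp : HasCompactSupport a := by
    refine HasCompactSupport.of_support_subset_isCompact (isCompact_Icc (a := (0 : ℝ)) (b := 1))
      fun t ht => ?_
    by_contra hcon
    apply ht
    rw [mem_Icc, not_and_or, not_le, not_le] at hcon
    rcases hcon with hc | hc
    · exact h0 t (by linarith)
    · exact h1 t (by linarith)
  have hdsupp : HasCompactSupport (deriv a) := hsupp.deriv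
  have i1 : Integrable (fun t : ℝ => a t ^ 2 * t ^ k) := by
    refine Continuous.integrable_of_hasCompactSupport (by fun_prop) ?_
    refine hsupp.mono fun t ht => ?_
    intro hat
    apply ht
    simp [hat]
  have i2 : Integrable (fun t : ℝ => deriv a t ^ 2 * t ^ (k + 2)) := by
    refine Continuous.integrable_of_hasCompactSupport (by fun_prop) ?_
    refine hdsupp.mono fun t ht => ?_
    intro hat
    apply ht
    simp [hat]
  have i3 : Integrable (fun t : ℝ => 2 * a t * deriv a t * t ^ (k + 1) + m * (a t ^ 2 * t ^ k)) := by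
    refine Continuous.integrable_of_hasCompactSupport (by fun_prop) ?_
    refine hsupp.mono fun t ht => ?_
    intro hat
    apply ht
    simp [hat]
  have hD : ∀ t : ℝ, HasDerivAt (fun t => a t ^ 2 * t ^ (k + 1))
      (2 * a t * deriv a t * t ^ (k + 1) + m * (a t ^ 2 * t ^ k)) t := by
    intro t
    have h2 : HasDerivAt a (deriv a t) t :=
      (hsm.differentiable (by simp)).differentiableAt.hasDerivAt
    have h3 := (h2.pow 2).mul (hasDerivAt_pow (k + 1) t)
    refine h3.congr_deriv ?_
    rw [hm]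
    push_cast
    simp only [Pi.pow_apply]
    ring
  have hz : ∫ t in Ioi (0 : ℝ), (2 * a t * deriv a t * t ^ (k + 1) + m * (a t ^ 2 * t ^ k)) = 0 := by
    have hlim : Filter.Tendsto (fun t => a t ^ 2 * t ^ (k + 1)) Filter.atTop (nhds 0) := by
      refine tendsto_const_nhds.congr' ?_
      filter_upwards [Filter.eventually_ge_atTop 1] with t ht
      rw [h1 t (by linarith)]
      simp
    have h4 := integral_Ioi_of_hasDerivAt_of_tendsto' (a := 0) (fun t _ => hD t)
      i3.integrableOn hlim
    rw [h4]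
    simp
  have hpt : ∀ t ∈ Ioi (0 : ℝ), m / 2 * (a t ^ 2 * t ^ k) ≤
      (2 * a t * deriv a t * t ^ (k + 1) + m * (a t ^ 2 * t ^ k)) +
        2 / m * (deriv a t ^ 2 * t ^ (k + 2)) := by
    intro t ht
    have ht0 : (0 : ℝ) < t := ht
    have h5 : 0 ≤ t ^ k * (m / 2) * (a t + 2 / m * (deriv a t * t)) ^ 2 := by positivity
    have h6 : t ^ k * (m / 2) * (a t + 2 / m * (deriv a t * t)) ^ 2 =
        m / 2 * (a t ^ 2 * t ^ k) + 2 * a t * deriv a t * t ^ (k + 1) +
          2 / m * (deriv a t ^ 2 * t ^ (k + 2)) := by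
      field_simp
      ring
    nlinarith [h5, h6]
  have h7 : ∫ t in Ioi (0 : ℝ), m / 2 * (a t ^ 2 * t ^ k) ≤
      ∫ t in Ioi (0 : ℝ), ((2 * a t * deriv a t * t ^ (k + 1) + m * (a t ^ 2 * t ^ k)) +
        2 / m * (deriv a t ^ 2 * t ^ (k + 2))) := by
    refine setIntegral_mono_on (i1.const_mul _).integrableOn
      (i3.add (i2.const_mul _)).integrableOn measurableSet_Ioi hpt
  rw [integral_add i3.integrableOn (i2.const_mul _).integrableOn, hz, integral_const_mul,
    integral_const_mul, zero_add] at h7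
  calc ∫ t in Ioi (0 : ℝ), a t ^ 2 * t ^ k
      = 2 / m * (m / 2 * ∫ t in Ioi (0 : ℝ), a t ^ 2 * t ^ k) := by
        field_simp
    _ ≤ 2 / m * (2 / m * ∫ t in Ioi (0 : ℝ), deriv a t ^ 2 * t ^ (k + 2)) := by
        refine mul_le_mul_of_nonneg_left h7 (by positivity)
    _ = 4 / m ^ 2 * ∫ t in Ioi (0 : ℝ), deriv a t ^ 2 * t ^ (k + 2) := by
        field_simp
        ring

end Pool.Agent.H99.LK
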