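import Pool.Agent.H85.LK.Targets

set_option autoImplicit false

open MeasureTheory Metric Set ProbabilityTheory
open scoped ENNReal

namespace Pool.Agent.H99.LK

open Pool.Agent.H85.LK

lemma charFunDual_gauss (L : StrongDual ℝ ℝ) :
    charFunDual (gaussianReal 0 1) L = Complex.exp (-((L 1 : ℝ) : ℂ) ^ 2 / 2) := by
  have h1 : charFunDual (gaussianReal 0 1) L = charFun (gaussianReal 0 1) (L 1) := by
    rw [charFunDual_apply, charFun_apply_real]
    refine integral_congr_ae (Filter.Eventually.of_forall fun v => ?_)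
    have h2 : L v = L 1 * v := by
      have h3 := L.map_smul v (1 : ℝ)
      simp only [smul_eq_mul, mul_one] at h3
      rw [h3]
      ring
    simp only [h2]
    push_cast
    rfl
  rw [h1, charFun_gaussianReal]
  congr 1
  push_cast
  simp
  ring

theorem pf_GV : T_GV := by
  intro n u u' hu hu'
  set k : ℝ := inner ℝ u u' with hk
  have hk2 : k ^ 2 ≤ 1 := by
    have h1 := abs_real_inner_le_norm u u'
    rw [hu, hu', mul_one] at h1
    rw [← hk] at h1
    have h2 := abs_le.1 h1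
    nlinarith [h2.1, h2.2]
  let L₁ : E n →L[ℝ] ℝ × ℝ := (innerSL ℝ u).prod (innerSL ℝ u')
  let L₂ : ℝ × ℝ →L[ℝ] ℝ × ℝ := (ContinuousLinearMap.fst ℝ ℝ ℝ).prod
    (k • ContinuousLinearMap.fst ℝ ℝ ℝ + Real.sqrt (1 - k ^ 2) • ContinuousLinearMap.snd ℝ ℝ ℝ)
  have h1 : (fun c : E n => ((inner ℝ c u : ℝ), (inner ℝ c u' : ℝ))) = ⇑L₁ := by
    funext c
    simp only [L₁, ContinuousLinearMap.prod_apply, innerSL_apply_apply]
    rw [real_inner_comm c u, real_inner_comm c u']
  have h2 : (fun p : ℝ × ℝ => (p.1, k * p.1 + Real.sqrt (1 - k ^ 2) * p.2)) = ⇑L₂ := by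
    funext p
    simp [L₂]
  rw [h1, h2]
  have : IsProbabilityMeasure ((stdGaussian (E n)).map ⇑L₁) :=
    Measure.isProbabilityMeasure_map L₁.continuous.aemeasurable
  have : IsProbabilityMeasure (((gaussianReal 0 1).prod (gaussianReal 0 1)).map ⇑L₂) :=
    Measure.isProbabilityMeasure_map L₂.continuous.aemeasurable
  refine Measure.ext_of_charFunDual (funext fun L => ?_)
  rw [charFunDual_map, charFunDual_map, charFunDual_stdGaussian, charFunDual_prod,
    charFunDual_gauss, charFunDual_gauss, ← Complex.exp_add]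
  set s : ℝ := L (1, 0) with hs
  set t : ℝ := L (0, 1) with ht
  have hL : ∀ a b : ℝ, L (a, b) = a * s + b * t := by
    intro a b
    have h3 : ((a, b) : ℝ × ℝ) = a • (1, 0) + b • (0, 1) := by simp
    rw [h3, map_add, map_smul, map_smul, smul_eq_mul, smul_eq_mul]
  have h4 : L.comp L₁ = innerSL ℝ (s • u + t • u') := by
    ext c
    simp only [ContinuousLinearMap.comp_apply, L₁, ContinuousLinearMap.prod_apply,
      innerSL_apply_apply, hL, inner_add_left, real_inner_smul_left]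
    ring
  have h5 : ‖L.comp L₁‖ ^ 2 = s ^ 2 + 2 * s * t * k + t ^ 2 := by
    rw [h4, innerSL_apply_norm, norm_add_sq_real, norm_smul, norm_smul, hu, hu',
      real_inner_smul_left, real_inner_smul_right, ← hk, mul_one, mul_one, Real.norm_eq_abs,
      Real.norm_eq_abs, sq_abs, sq_abs]
    ring
  have h6 : (L.comp L₂).comp (ContinuousLinearMap.inl ℝ ℝ ℝ) 1 = s + t * k := by
    simp [L₂, hL]
    ring
  have h7 : (L.comp L₂).comp (ContinuousLinearMap.inr ℝ ℝ ℝ) 1 = t * Real.sqrt (1 - k ^ 2) := by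
    simp [L₂, hL]
    ring
  have h8 : Real.sqrt (1 - k ^ 2) ^ 2 = 1 - k ^ 2 := Real.sq_sqrt (by linarith)
  have h9 : (-((s + t * k : ℝ)) ^ 2 / 2 + -(t * Real.sqrt (1 - k ^ 2)) ^ 2 / 2 : ℝ) =
      -(s ^ 2 + 2 * s * t * k + t ^ 2) / 2 := by
    rw [mul_pow, h8]
    ring
  rw [h6, h7]
  congr 1
  have h10 : ((‖L.comp L₁‖ : ℝ) : ℂ) ^ 2 = ((‖L.comp L₁‖ ^ 2 : ℝ) : ℂ) := by push_cast; rfl
  rw [h10, h5, ← Complex.ofReal_pow, ← Complex.ofReal_pow]
  have h11 : -(((s ^ 2 + 2 * s * t * k + t ^ 2 : ℝ)) : ℂ) / 2 =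
      ((-(s ^ 2 + 2 * s * t * k + t ^ 2) / 2 : ℝ) : ℂ) := by push_cast; ring
  rw [h11, ← h9]
  push_cast
  ring

end Pool.Agent.H99.LK
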